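import Pool.Agent.H12.TOH.Dih

/-!
MP_397744_co, board toh_modules, row ANG: two reflections whose product has finite order.
-/

set_option autoImplicit false

namespace Pool.Agent.H12.TOH

open Pool.Agent.H57.CP Pool.Agent.H39.TO

theorem pf_ANG : T_ANG := by
  intro x y N hx hy hN hli hord
  have hN1 : 0 < N := by omega
  have hN0 : (0 : ℝ) < N := by exact_mod_cast hN1
  have hc : (mk x y) ^ 2 < 1 := by
    by_contra hle
    push Not at hle
    exact pow_ne_one hx hy hli hle N (by omega) ((hord N).2 (dvd_refl N))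
  have hc' := abs_lt.1 ((sq_lt_one_iff_abs_lt_one _).1 hc)
  set φ := Real.arccos (mk x y) with hφ
  have hcos : mk x y = Real.cos φ := (Real.cos_arccos hc'.1.le hc'.2.le).symm
  have hsin : Real.sin φ ≠ 0 := by
    intro h
    have h1 := Real.sin_sq_add_cos_sq φ
    rw [h, ← hcos] at h1
    linarith
  have hφ0 : 0 < φ := by
    refine lt_of_le_of_ne (Real.arccos_nonneg _) ?_
    intro h
    rw [← h] at hsin
    simp at hsin
  have hφ1 : φ < Real.pi := by
    refine lt_of_le_of_ne (Real.arccos_le_pi _) ?_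
    intro h
    rw [h] at hsin
    simp at hsin
  have h1 := (pow_eq_one_iff hx hy hcos hsin N).1 ((hord N).2 (dvd_refl N))
  rw [Real.cos_eq_one_iff] at h1
  obtain ⟨n, hn⟩ := h1
  have h2 : φ = n * Real.pi / N := by
    rw [eq_div_iff hN0.ne']
    linarith
  have hpi := Real.pi_pos
  have hn0 : 0 < n := by
    have h3 : 0 < (n : ℝ) * Real.pi := by
      have : φ * N = n * Real.pi := by rw [h2]; field_simp
      rw [← this]
      positivity
    have h4 : (0 : ℝ) < n := pos_of_mul_pos_left h3 hpi.le
    exact_mod_cast h4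
  have hnN : n < N := by
    have h3 : (n : ℝ) * Real.pi < N * Real.pi := by
      have : φ * N = n * Real.pi := by rw [h2]; field_simp
      rw [← this]
      nlinarith
    have h4 : (n : ℝ) < N := lt_of_mul_lt_mul_right h3 hpi.le
    exact_mod_cast h4
  lift n to ℕ using hn0.le
  have hk0 : 0 < n := by exact_mod_cast hn0
  have hkN : n < N := by exact_mod_cast hnN
  refine ⟨n, hk0, hkN, ?_, by rw [hcos, h2]; push_cast; rfl⟩
  -- coprimality
  have hg : 0 < Nat.gcd n N := Nat.gcd_pos_of_pos_left _ hk0
  obtain ⟨k', hk'⟩ := Nat.gcd_dvd_left n N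
  obtain ⟨N', hN'⟩ := Nat.gcd_dvd_right n N
  set g := Nat.gcd n N with hgdef
  have h5 : (refl x * refl y : Module.End ℝ V4) ^ N' = 1 := by
    rw [pow_eq_one_iff hx hy hcos hsin, Real.cos_eq_one_iff]
    refine ⟨k', ?_⟩
    have e1 : (N : ℝ) = g * N' := by exact_mod_cast hN'
    have e2 : (n : ℝ) = g * k' := by exact_mod_cast hk'
    have e3 : (g : ℝ) ≠ 0 := by positivity
    have e4 : (N' : ℝ) ≠ 0 := by
      intro h
      rw [h, mul_zero] at e1
      linarith
    rw [h2]
    push_cast
    rw [e1, e2]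
    field_simp
  have h6 := (hord N').1 h5
  have h7 : 0 < N' := by
    rcases Nat.eq_zero_or_pos N' with h | h
    · rw [h, mul_zero] at hN'
      omega
    · exact h
  have h8 := Nat.le_of_dvd h7 h6
  rw [hN'] at h8
  have h9 : g ≤ 1 := by
    by_contra h
    push Not at h
    nlinarith
  exact le_antisymm h9 hg

end Pool.Agent.H12.TOH
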