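import Pool.Agent.H39.TO.Targets

/-!
MP_397744_co, board toh_modules: powers of the product of two reflections.
-/

set_option autoImplicit false

namespace Pool.Agent.H12.TOH

open Pool.Agent.H57.CP Pool.Agent.H39.TO

lemma mk_comm' (x y : V4) : mk x y = mk y x := by
  simp only [mk]; ring

lemma mk_add' (a x y : V4) : mk a (x + y) = mk a x + mk a y := by
  simp only [mk, Pi.add_apply]; ring

lemma mk_smul' (a x : V4) (t : ℝ) : mk a (t • x) = t * mk a x := by
  simp only [mk, Pi.smul_apply, smul_eq_mul]; ring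

lemma refl_eq (a z : V4) : refl a z = z + (2 * mk a z) • a := by
  ext i
  change z i + 2 * mk a z * a i = z i + (2 * mk a z) * a i
  ring

lemma refl_neg (a : V4) : refl (-a) = refl a := by
  refine LinearMap.ext fun z => ?_
  have h : mk (-a) z = - mk a z := by
    simp only [mk, Pi.neg_apply]; ring
  rw [refl_eq, refl_eq, h]
  simp

lemma prod_x {x y : V4} {c : ℝ} (hx : mk x x = -1) (hc : mk x y = c) :
    (refl x * refl y : Module.End ℝ V4) x = (4 * c ^ 2 - 1) • x + (2 * c) • y := by
  rw [Module.End.mul_apply, refl_eq y, refl_eq x, mk_add', mk_smul', mk_comm' y x, hc, hx]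
  module

lemma prod_y {x y : V4} {c : ℝ} (hy : mk y y = -1) (hc : mk x y = c) :
    (refl x * refl y : Module.End ℝ V4) y = (-(2 * c)) • x + (-1 : ℝ) • y := by
  rw [Module.End.mul_apply, refl_eq y, refl_eq x, mk_add', mk_smul', hc, hy]
  module

lemma prod_perp {x y z : V4} (hx : mk x z = 0) (hy : mk y z = 0) :
    (refl x * refl y : Module.End ℝ V4) z = z := by
  rw [Module.End.mul_apply, refl_eq y, hy]
  simp only [mul_zero, zero_smul, add_zero]
  rw [refl_eq x, hx]
  simp

lemma pow_perp {x y z : V4} (hx : mk x z = 0) (hy : mk y z = 0) (m : ℕ) :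
    ((refl x * refl y : Module.End ℝ V4) ^ m) z = z := by
  induction m with
  | zero => simp
  | succ m ih => rw [pow_succ', Module.End.mul_apply, ih, prod_perp hx hy]

lemma pow_x {x y : V4} {φ : ℝ} (hx : mk x x = -1) (hy : mk y y = -1) (hc : mk x y = Real.cos φ)
    (m : ℕ) : Real.sin φ • ((refl x * refl y : Module.End ℝ V4) ^ m) x =
      (Real.sin (2 * m * φ) * Real.cos φ + Real.cos (2 * m * φ) * Real.sin φ) • x +
        Real.sin (2 * m * φ) • y := by
  induction m with
  | zero => simp
  | succ m ih =>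
    rw [pow_succ', Module.End.mul_apply, ← map_smul, ih, map_add, map_smul, map_smul,
      prod_x hx hc, prod_y hy hc]
    have h0 : 2 * ((m + 1 : ℕ) : ℝ) * φ = 2 * m * φ + 2 * φ := by push_cast; ring
    rw [h0, Real.sin_add, Real.cos_add, Real.sin_two_mul, Real.cos_two_mul]
    have h1 : Real.sin φ ^ 2 = 1 - Real.cos φ ^ 2 := by
      rw [← Real.sin_sq_add_cos_sq φ]; ring
    generalize Real.sin (2 * m * φ) = S
    generalize Real.cos (2 * m * φ) = C
    have e1 : (S * (2 * Real.cos φ ^ 2 - 1) + C * (2 * Real.sin φ * Real.cos φ)) * Real.cos φ +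
        (C * (2 * Real.cos φ ^ 2 - 1) - S * (2 * Real.sin φ * Real.cos φ)) * Real.sin φ =
        (S * Real.cos φ + C * Real.sin φ) * (4 * Real.cos φ ^ 2 - 1) +
          S * (-(2 * Real.cos φ)) := by
      linear_combination (-2 * S * Real.cos φ) * h1
    rw [e1]
    module

lemma pow_y {x y : V4} {φ : ℝ} (hx : mk x x = -1) (hy : mk y y = -1) (hc : mk x y = Real.cos φ)
    (m : ℕ) : Real.sin φ • ((refl x * refl y : Module.End ℝ V4) ^ m) y =
      (-Real.sin (2 * m * φ)) • x +
        (Real.cos (2 * m * φ) * Real.sin φ - Real.sin (2 * m * φ) * Real.cos φ) • y := by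
  induction m with
  | zero => simp
  | succ m ih =>
    rw [pow_succ', Module.End.mul_apply, ← map_smul, ih, map_add, map_smul, map_smul,
      prod_x hx hc, prod_y hy hc]
    have h0 : 2 * ((m + 1 : ℕ) : ℝ) * φ = 2 * m * φ + 2 * φ := by push_cast; ring
    rw [h0, Real.sin_add, Real.cos_add, Real.sin_two_mul, Real.cos_two_mul]
    have h1 : Real.sin φ ^ 2 = 1 - Real.cos φ ^ 2 := by
      rw [← Real.sin_sq_add_cos_sq φ]; ring
    generalize Real.sin (2 * m * φ) = S
    generalize Real.cos (2 * m * φ) = C
    have e1 : (C * (2 * Real.cos φ ^ 2 - 1) - S * (2 * Real.sin φ * Real.cos φ)) * Real.sin φ -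
        (S * (2 * Real.cos φ ^ 2 - 1) + C * (2 * Real.sin φ * Real.cos φ)) * Real.cos φ =
        (-S) * (2 * Real.cos φ) + (C * Real.sin φ - S * Real.cos φ) * (-1) := by
      linear_combination (-2 * S * Real.cos φ) * h1
    rw [e1]
    module

/-- the powers which are trivial -/
theorem pow_eq_one_iff {x y : V4} {φ : ℝ} (hx : mk x x = -1) (hy : mk y y = -1)
    (hc : mk x y = Real.cos φ) (hs : Real.sin φ ≠ 0) (m : ℕ) :
    (refl x * refl y : Module.End ℝ V4) ^ m = 1 ↔ Real.cos (2 * m * φ) = 1 := by
  have h1 : Real.sin φ ^ 2 = 1 - Real.cos φ ^ 2 := by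
    rw [← Real.sin_sq_add_cos_sq φ]; ring
  constructor
  · intro h
    have h2 := pow_x hx hy hc m
    rw [h, Module.End.one_apply] at h2
    -- multiply with `x` and with `y`
    have h3 := congrArg (mk x) h2
    have h4 := congrArg (mk y) h2
    rw [mk_smul', mk_add', mk_smul', mk_smul', hx, hc] at h3
    rw [mk_smul', mk_add', mk_smul', mk_smul', hy, mk_comm' y x, hc] at h4
    set S := Real.sin (2 * m * φ)
    set C := Real.cos (2 * m * φ)
    have h5 : S * Real.sin φ ^ 2 = 0 := by
      rw [h1]
      linear_combination Real.cos φ * h3 + h4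
    have h6 : S = 0 := by
      rcases mul_eq_zero.1 h5 with h | h
      · exact h
      · exact absurd (pow_eq_zero_iff (two_ne_zero) |>.1 h) hs
    rw [h6] at h3
    have h7 : Real.sin φ * (C - 1) = 0 := by linear_combination h3
    rcases mul_eq_zero.1 h7 with h | h
    · exact absurd h hs
    · linarith
  · intro h
    have hS : Real.sin (2 * m * φ) = 0 := by
      have := Real.sin_sq_add_cos_sq (2 * m * φ)
      rw [h] at this
      nlinarith
    have hTx : ((refl x * refl y : Module.End ℝ V4) ^ m) x = x := by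
      have h2 := pow_x hx hy hc m
      rw [h, hS] at h2
      have h3 : Real.sin φ • ((refl x * refl y : Module.End ℝ V4) ^ m) x = Real.sin φ • x := by
        rw [h2]; module
      exact smul_right_injective V4 hs h3
    have hTy : ((refl x * refl y : Module.End ℝ V4) ^ m) y = y := by
      have h2 := pow_y hx hy hc m
      rw [h, hS] at h2
      have h3 : Real.sin φ • ((refl x * refl y : Module.End ℝ V4) ^ m) y = Real.sin φ • y := by
        rw [h2]; module
      exact smul_right_injective V4 hs h3
    refine LinearMap.ext fun z => ?_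
    rw [Module.End.one_apply]
    have hne : 1 - Real.cos φ ^ 2 ≠ 0 := by rw [← h1]; positivity
    set al := -(mk x z + Real.cos φ * mk y z) / (1 - Real.cos φ ^ 2) with hal
    set be := -(Real.cos φ * mk x z + mk y z) / (1 - Real.cos φ ^ 2) with hbe
    have hz : z = al • x + be • y + (z + (-al) • x + (-be) • y) := by module
    have hp1 : mk x (z + (-al) • x + (-be) • y) = 0 := by
      rw [mk_add', mk_add', mk_smul', mk_smul', hx, hc, hal, hbe]
      field_simp
      ring
    have hp2 : mk y (z + (-al) • x + (-be) • y) = 0 := by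
      rw [mk_add', mk_add', mk_smul', mk_smul', hy, mk_comm' y x, hc, hal, hbe]
      field_simp
      ring
    have hq := pow_perp hp1 hp2 m
    calc ((refl x * refl y : Module.End ℝ V4) ^ m) z
        = ((refl x * refl y : Module.End ℝ V4) ^ m)
            (al • x + be • y + (z + (-al) • x + (-be) • y)) := by rw [← hz]
      _ = al • x + be • y + (z + (-al) • x + (-be) • y) := by
          rw [map_add, map_add, map_smul, map_smul, hTx, hTy, hq]
      _ = z := hz.symm

/-- if the product is at least one in absolute value, the order is infinite -/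
theorem pow_ne_one {x y : V4} (hx : mk x x = -1) (hy : mk y y = -1)
    (hli : LinearIndependent ℝ ![x, y]) (hc : 1 ≤ (mk x y) ^ 2) (m : ℕ) (hm : 1 ≤ m) :
    (refl x * refl y : Module.End ℝ V4) ^ m ≠ 1 := by
  set c := mk x y with hcdef
  have key : ∀ m : ℕ, ∃ a b : ℝ, ((refl x * refl y : Module.End ℝ V4) ^ m) x = a • x + b • y ∧
      1 ≤ a - c * b ∧ 0 ≤ c * b ∧ (1 ≤ m → 0 < c * b) := by
    intro m
    induction m with
    | zero => exact ⟨1, 0, by simp, by simp, by simp, by simp⟩
    | succ m ih =>
      obtain ⟨a, b, h1, h2, h3, _⟩ := ih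
      refine ⟨a * (4 * c ^ 2 - 1) + b * (-(2 * c)), a * (2 * c) + b * (-1), ?_, ?_, ?_, ?_⟩
      · rw [pow_succ', Module.End.mul_apply, h1, map_add, map_smul, map_smul,
          prod_x hx rfl, prod_y hy rfl]
        module
      · nlinarith [mul_nonneg (by linarith : (0 : ℝ) ≤ a) (sub_nonneg.2 hc)]
      · nlinarith [mul_nonneg (by linarith : (0 : ℝ) ≤ a) (sub_nonneg.2 hc)]
      · intro _
        nlinarith [mul_nonneg (by linarith : (0 : ℝ) ≤ a) (sub_nonneg.2 hc)]
  obtain ⟨a, b, h1, h2, h3, h4⟩ := key m
  intro h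
  rw [h, Module.End.one_apply] at h1
  have h5 : (a - 1) • x + b • y = 0 := by
    have : (a - 1) • x + b • y = (a • x + b • y) - x := by module
    rw [this, ← h1, sub_self]
  have h6 := (LinearIndependent.pair_iff.1 hli) (a - 1) b h5
  have h7 := h4 hm
  rw [h6.2] at h7
  simp at h7

end Pool.Agent.H12.TOH
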