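import Pool.Agent.H12.TOH.Dih

/-!
MP_397744_co, board toh_modules, row ORR: the order of the product of two reflections.
-/

set_option autoImplicit false

namespace Pool.Agent.H12.TOH

open Pool.Agent.H57.CP Pool.Agent.H39.TO

lemma sin_ne {k N : ℕ} (hN : 2 ≤ N) (hk : Nat.Coprime k N) :
    Real.sin (k * Real.pi / N) ≠ 0 := by
  intro h
  rw [Real.sin_eq_zero_iff] at h
  obtain ⟨n, hn⟩ := h
  have hN0 : (N : ℝ) ≠ 0 := by
    have : 0 < N := by omega
    positivity
  have h1 : (n : ℝ) * N = k := by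
    have h2 : (n : ℝ) * N * Real.pi = k * Real.pi := by
      field_simp at hn
      linear_combination Real.pi * hn
    exact mul_right_cancel₀ Real.pi_ne_zero h2
  have h3 : (n : ℤ) * N = k := by exact_mod_cast h1
  have h4 : (N : ℤ) ∣ (k : ℤ) := ⟨n, by rw [← h3]; ring⟩
  have h5 : N ∣ k := by exact_mod_cast h4
  have h6 : N ∣ 1 := by
    have := Nat.dvd_gcd h5 (dvd_refl N)
    rwa [hk] at this
  have := Nat.le_of_dvd one_pos h6
  omega

lemma cos_iff {k N : ℕ} (hN : 2 ≤ N) (hk : Nat.Coprime k N) (m : ℕ) :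
    Real.cos (2 * m * (k * Real.pi / N)) = 1 ↔ N ∣ m := by
  have hN0 : (N : ℝ) ≠ 0 := by
    have : 0 < N := by omega
    positivity
  rw [Real.cos_eq_one_iff]
  constructor
  · rintro ⟨n, hn⟩
    have h1 : (n : ℝ) * N = m * k := by
      have h2 : (n : ℝ) * N * Real.pi = m * k * Real.pi := by
        field_simp at hn
        linear_combination Real.pi * hn
      exact mul_right_cancel₀ Real.pi_ne_zero h2
    have h3 : (n : ℤ) * N = (m : ℤ) * k := by exact_mod_cast h1
    have h4 : (N : ℤ) ∣ (m : ℤ) * k := ⟨n, by rw [← h3]; ring⟩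
    have h5 : N ∣ m * k := by exact_mod_cast h4
    exact (Nat.Coprime.dvd_mul_right hk.symm).1 h5
  · rintro ⟨j, rfl⟩
    refine ⟨(j * k : ℕ), ?_⟩
    push_cast
    field_simp

theorem pf_ORR : T_ORR := by
  intro x y k N hx hy hN hk hc m
  have hs := sin_ne hN hk
  rcases sq_eq_sq_iff_eq_or_eq_neg.1 hc with h | h
  · rw [pow_eq_one_iff hx hy h hs, cos_iff hN hk]
  · have h1 : mk x y = Real.cos (k * Real.pi / N + Real.pi) := by
      rw [Real.cos_add_pi, h]
    have h2 : Real.sin (k * Real.pi / N + Real.pi) ≠ 0 := by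
      rw [Real.sin_add_pi]
      exact neg_ne_zero.2 hs
    have h3 : Real.cos (2 * m * (k * Real.pi / N + Real.pi)) =
        Real.cos (2 * m * (k * Real.pi / N)) := by
      have h4 : 2 * m * (k * Real.pi / N + Real.pi) =
          2 * m * (k * Real.pi / N) + m * (2 * Real.pi) := by ring
      rw [h4, Real.cos_add_nat_mul_two_pi]
    rw [pow_eq_one_iff hx hy h1 h2, h3, cos_iff hN hk]

end Pool.Agent.H12.TOH
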