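import Pool.Agent.H39.TO.Targets

/-!
MP_397744_co, board toh_modules, row XAA: polyhedra with two different face sizes.
-/

set_option autoImplicit false

namespace Pool.Agent.H12.TOH

open Pool.Agent.H57.CP Pool.Agent.H39.TO

/-- entry of the Coxeter matrix: `0` for infinite order -/
noncomputable def ent (p : ℕ∞) : ℕ := p.toNat

lemma ent_ne_one {p : ℕ∞} (hp : 3 ≤ p) : ent p ≠ 1 := by
  intro h
  rw [ent] at h
  by_cases ht : p = ⊤
  · subst ht; simp at h
  · obtain ⟨m, rfl⟩ := ENat.ne_top_iff_exists.mp ht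
    rw [ENat.toNat_coe] at h
    subst h
    have : 3 ≤ 1 := by exact_mod_cast hp
    omega

lemma ent_ge {p : ℕ∞} (hp : 3 ≤ p) (h0 : ent p ≠ 0) : 3 ≤ ent p := by
  rw [ent] at h0 ⊢
  by_cases ht : p = ⊤
  · subst ht; simp at h0
  · obtain ⟨m, rfl⟩ := ENat.ne_top_iff_exists.mp ht
    rw [ENat.toNat_coe]
    exact_mod_cast hp

/-- the order of the product of two simple reflections, in `ℕ∞` -/
lemma oE_prod (hDIF : T_DIF) (hDII : T_DII) (M : CoxeterMatrix (Fin 3)) (al : Fin 3 → V4)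
    (σ : M.Group →* Module.End ℝ V4) (hN : Nrm M al) (hS : Sg M al σ)
    (ψ : M.Group →* Equiv.Perm H3) (hψ : Function.Injective ψ) (i j : Fin 3) (hij : i ≠ j)
    (p : ℕ∞) (hp : p ≠ 0) (hM : M i j = ent p) : oE (ψ (ss M i) * ψ (ss M j)) = p := by
  have h1 : ∀ m : ℕ, (ss M i * ss M j) ^ m = 1 ↔ M i j ∣ m := by
    intro m
    by_cases h0 : M i j = 0
    · rw [hDII M al σ hN hS i j hij h0 m, h0, zero_dvd_iff]
    · exact (hDIF M al σ hN hS i j hij h0).2 m
  have h2 : orderOf (ss M i * ss M j) = M i j := by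
    refine Nat.dvd_antisymm (orderOf_dvd_of_pow_eq_one ((h1 _).2 (dvd_refl _))) ?_
    exact (h1 _).1 (pow_orderOf_eq_one _)
  have h3 : orderOf (ψ (ss M i) * ψ (ss M j)) = ent p := by
    rw [← map_mul, orderOf_injective ψ hψ, h2, hM]
  rw [oE, h3]
  by_cases ht : p = ⊤
  · subst ht; simp [ent]
  · obtain ⟨m, rfl⟩ := ENat.ne_top_iff_exists.mp ht
    have hm : m ≠ 0 := by
      rintro rfl
      exact hp rfl
    simp [ent, hm]

/-- two simple reflections with angle less than a right angle -/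
lemma mk_pos (M : CoxeterMatrix (Fin 3)) (al : Fin 3 → V4) (hN : Nrm M al) (i j : Fin 3)
    (hij : i ≠ j) (h : M i j = 0 ∨ 3 ≤ M i j) : 0 < mk (al i) (al j) := by
  by_cases h0 : M i j = 0
  · have := hN.inf i j hij h0
    linarith
  · rw [hN.fin i j hij h0]
    have h3 : 3 ≤ M i j := by omega
    have h4 : (3 : ℝ) ≤ (M i j : ℕ) := by exact_mod_cast h3
    refine Real.cos_pos_of_mem_Ioo ⟨?_, ?_⟩
    · have : 0 ≤ Real.pi / (M i j : ℕ) := by positivity
      linarith [Real.pi_pos]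
    · rw [div_lt_iff₀ (by linarith)]
      nlinarith [Real.pi_pos]

lemma closure_top (M : CoxeterMatrix (Fin 3)) :
    Subgroup.closure {ss M 2, ss M 0, ss M 1} = ⊤ := by
  rw [← M.toCoxeterSystem.subgroup_closure_range_simple]
  congr 1
  ext x
  simp only [Set.mem_insert_iff, Set.mem_singleton_iff, Set.mem_range]
  constructor
  · rintro (rfl | rfl | rfl)
    · exact ⟨2, rfl⟩
    · exact ⟨0, rfl⟩
    · exact ⟨1, rfl⟩
  · rintro ⟨i, rfl⟩
    fin_cases i
    · exact Or.inr (Or.inl rfl)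
    · exact Or.inr (Or.inr rfl)
    · exact Or.inl rfl

theorem pf_XAA (hNRB : T_NRB) (hREP : T_REP) (hPSI : T_PSI) (hBWS : T_BWS) (hCHT : T_CHT)
    (hDIF : T_DIF) (hDII : T_DII) (hBEB : T_BEB) (hBEE : T_BEE) (hBEF : T_BEF) : T_XAA := by
  intro p p' n hp hp' hne hn
  have hent : n ≠ 1 ∧ ent p ≠ 1 ∧ ent p' ≠ 1 := ⟨by omega, ent_ne_one hp, ent_ne_one hp'⟩
  set M := cox n (ent p) (ent p') hent with hMdef
  have m01 : M 0 1 = n := rfl
  have m20 : M 2 0 = ent p := rfl
  have m21 : M 2 1 = ent p' := rfl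
  obtain ⟨al, hN, o0, o1, o2⟩ := hNRB M 0 1 2 (by decide) (by decide) (by decide)
    (by rw [m01]; omega)
  obtain ⟨σ, hS⟩ := hREP M al hN
  obtain ⟨ψ, hP, hinj⟩ := hPSI M al σ hN hS
  have e2 : σ 1 (al 2) = al 2 := by rw [map_one]; rfl
  have hB : BStr o (ψ (ss M 2)) (ψ (ss M 0)) (ψ (ss M 1)) := by
    refine hBWS M al σ ψ hN hS hP hinj 0 1 2 2 1 o (by decide) (by decide) (by decide)
      (by rw [m01]; omega) o0 o1 o2 (ss M 2) (by group) (closure_top M) ?_ ?_ ?_
    · rw [e2]; exact o2.ne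
    · rw [e2]
      have h := hN.li.comp ![2, 0, 1] (by decide)
      convert h using 1
      ext i
      fin_cases i <;> rfl
    · intro g hg hgx
      rw [e2] at hgx
      refine hCHT M al σ hN hS 0 1 g (-al 2) (by decide) hg ?_ ?_ (by rw [map_neg, hgx])
      · have h1 : mk (-al 2) (al 0) = - mk (al 2) (al 0) := by
          simp only [mk, Pi.neg_apply]; ring
        rw [h1]
        have := mk_pos M al hN 2 0 (by decide) (by
          rw [m20]
          by_cases h0 : ent p = 0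
          · exact Or.inl h0
          · exact Or.inr (ent_ge hp h0))
        linarith
      · have h1 : mk (-al 2) (al 1) = - mk (al 2) (al 1) := by
          simp only [mk, Pi.neg_apply]; ring
        rw [h1]
        have := mk_pos M al hN 2 1 (by decide) (by
          rw [m21]
          by_cases h0 : ent p' = 0
          · exact Or.inl h0
          · exact Or.inr (ent_ge hp' h0))
        linarith
  have hpos : ∀ q : ℕ∞, 3 ≤ q → q ≠ 0 := by
    rintro q hq rfl
    have : (3 : ℕ∞) ≤ ((0 : ℕ) : ℕ∞) := by simpa using hq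
    have : 3 ≤ 0 := by exact_mod_cast this
    omega
  have c1 : oE (ψ (ss M 2) * ψ (ss M 0)) = p :=
    oE_prod hDIF hDII M al σ hN hS ψ hinj 2 0 (by decide) p (hpos p hp) m20
  have c2 : oE (ψ (ss M 2) * ψ (ss M 1)) = p' :=
    oE_prod hDIF hDII M al σ hN hS ψ hinj 2 1 (by decide) p' (hpos p' hp') m21
  have c3 : oE (ψ (ss M 0) * ψ (ss M 1)) = (n : ℕ∞) := by
    refine oE_prod hDIF hDII M al σ hN hS ψ hinj 0 1 (by decide) n ?_ ?_
    · intro h
      have : n = 0 := by exact_mod_cast h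
      omega
    · rw [m01]; simp [ent]
  obtain ⟨f1, f2⟩ := hBEE o _ _ _ hB
  refine ⟨KB o (ψ (ss M 2)) (ψ (ss M 0)) (ψ (ss M 1)), hBEB o _ _ _ hB,
    hBEF o _ _ _ hB (Or.inl (by rw [c1, c2]; exact hne)), by rw [f1, c1, c2], ?_⟩
  rw [f2, c3]
  norm_num

end Pool.Agent.H12.TOH
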